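import Pool.Agent.Helper95.Lin.Basics
import Pool.Agent.Helper95.Lin.GoalsH

/-! # Naturality of the operator of a Hermitian metric -/

open Complex Metric Set Filter Topology MeasureTheory
open scoped ContDiff ComplexConjugate ComplexOrder

namespace Pool.Agent.Helper22.Lin

open Pool.Agent.Helper95.Lin

/-- The sesquilinear form attached to a real bilinear form. -/
noncomputable def hB {n : ℕ} (B : Cn n → Cn n → ℝ) (u v : Cn n) : ℂ :=
  (B u v : ℂ) - I * (B (I • u) v : ℂ) + I * (B u (I • v) : ℂ) + (B (I • u) (I • v) : ℂ)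

theorem rb_false {n : ℕ} (j : Fin n) : rb (j, false) = (Pi.single j 1 : Cn n) := by
  simp [rb]

theorem rb_true {n : ℕ} (j : Fin n) : rb (j, true) = (I • Pi.single j 1 : Cn n) := by
  simp only [rb, if_true]
  ext i
  by_cases h : i = j
  · subst h; simp
  · simp [h]

theorem Lop_PH {n : ℕ} (H : Cn n → Matrix (Fin n) (Fin n) ℂ) (φ : Cn n → ℝ) (x : Cn n) :
    Lop (PH H) φ x = (∑ j, ∑ k, (H x).adjugate k j *
      hB (hess φ x) (Pi.single j 1) (Pi.single k 1)).re := by
  have h1 : ∀ a b, dd (dd φ b) a x = hess φ x (rb a) (rb b) := fun a b => rfl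
  simp only [Lop, h1, Fintype.sum_prod_type, Fintype.sum_bool, rb_false, rb_true, PH, hB]
  rw [Complex.re_sum]
  have key : ∀ j k : Fin n, ((H x).adjugate k j * ((hess φ x (Pi.single j 1) (Pi.single k 1) : ℂ) -
      I * (hess φ x (I • Pi.single j 1) (Pi.single k 1) : ℂ) +
      I * (hess φ x (Pi.single j 1) (I • Pi.single k 1) : ℂ) +
      (hess φ x (I • Pi.single j 1) (I • Pi.single k 1) : ℂ))).re =
      ((H x).adjugate k j * conj I * I).re * hess φ x (I • Pi.single j 1) (I • Pi.single k 1) +
      ((H x).adjugate k j * conj I * 1).re * hess φ x (I • Pi.single j 1) (Pi.single k 1) +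
      (((H x).adjugate k j * conj 1 * I).re * hess φ x (Pi.single j 1) (I • Pi.single k 1) +
      ((H x).adjugate k j * conj 1 * 1).re * hess φ x (Pi.single j 1) (Pi.single k 1)) := by
    intro j k
    simp only [Complex.mul_re, Complex.mul_im, Complex.add_re, Complex.add_im, Complex.sub_re,
      Complex.sub_im, Complex.ofReal_re, Complex.ofReal_im, Complex.I_re, Complex.I_im,
      Complex.conj_I, Complex.neg_re, Complex.neg_im, map_one, Complex.one_re, Complex.one_im]
    ring
  refine Finset.sum_congr rfl fun j _ => ?_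
  rw [Complex.re_sum]
  simp only [key, Finset.sum_add_distrib]
  simp

section lin

variable {n : ℕ} (B : Cn n →L[ℝ] Cn n →L[ℝ] ℝ)

theorem hB_add_left (u u' v : Cn n) : hB (fun a b => B a b) (u + u') v =
    hB (fun a b => B a b) u v + hB (fun a b => B a b) u' v := by
  simp only [hB, smul_add, map_add, _root_.add_apply]
  push_cast; ring

theorem hB_add_right (u v v' : Cn n) : hB (fun a b => B a b) u (v + v') =
    hB (fun a b => B a b) u v + hB (fun a b => B a b) u v' := by
  simp only [hB, smul_add, map_add, _root_.add_apply]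
  push_cast; ring

theorem csmul_eq (c : ℂ) (u : Cn n) : c • u = c.re • u + c.im • (I • u) := by
  ext i
  simp only [Pi.smul_apply, Pi.add_apply, smul_eq_mul, Complex.real_smul]
  conv_lhs => rw [← Complex.re_add_im c]
  ring

theorem hB_I_left (u v : Cn n) : hB (fun a b => B a b) (I • u) v =
    I * hB (fun a b => B a b) u v := by
  have h : I • (I • u) = - u := by rw [smul_smul, Complex.I_mul_I]; simp
  simp only [hB, h, map_neg, _root_.neg_apply]
  push_cast
  linear_combination (B (I • u) v - B u (I • v) : ℂ) * Complex.I_sq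

theorem hB_I_right (u v : Cn n) : hB (fun a b => B a b) u (I • v) =
    - I * hB (fun a b => B a b) u v := by
  have h : I • (I • v) = - v := by rw [smul_smul, Complex.I_mul_I]; simp
  simp only [hB, h, map_neg, _root_.neg_apply]
  push_cast
  linear_combination (- B (I • u) v + B u (I • v) : ℂ) * Complex.I_sq

theorem hB_rsmul_left (r : ℝ) (u v : Cn n) : hB (fun a b => B a b) (r • u) v =
    r * hB (fun a b => B a b) u v := by
  have h : I • (r • u) = r • (I • u) := smul_comm _ _ _
  simp only [hB, h, map_smul, _root_.smul_apply, smul_eq_mul]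
  push_cast; ring

theorem hB_rsmul_right (r : ℝ) (u v : Cn n) : hB (fun a b => B a b) u (r • v) =
    r * hB (fun a b => B a b) u v := by
  have h : I • (r • v) = r • (I • v) := smul_comm _ _ _
  simp only [hB, h, map_smul, _root_.smul_apply, smul_eq_mul]
  push_cast; ring

theorem hB_smul_left (c : ℂ) (u v : Cn n) : hB (fun a b => B a b) (c • u) v =
    c * hB (fun a b => B a b) u v := by
  rw [csmul_eq, hB_add_left, hB_rsmul_left, hB_rsmul_left, hB_I_left]
  conv_rhs => rw [← Complex.re_add_im c]
  ring

theorem hB_smul_right (c : ℂ) (u v : Cn n) : hB (fun a b => B a b) u (c • v) =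
    conj c * hB (fun a b => B a b) u v := by
  rw [csmul_eq, hB_add_right, hB_rsmul_right, hB_rsmul_right, hB_I_right]
  have : conj c = c.re - c.im * I := by
    apply Complex.ext <;> simp
  rw [this]
  ring

theorem hB_zero_left (v : Cn n) : hB (fun a b => B a b) 0 v = 0 := by
  simp [hB]

theorem hB_zero_right (u : Cn n) : hB (fun a b => B a b) u 0 = 0 := by
  simp [hB]

theorem hB_sum_left {ι : Type} (s : Finset ι) (f : ι → Cn n) (v : Cn n) :
    hB (fun a b => B a b) (∑ i ∈ s, f i) v = ∑ i ∈ s, hB (fun a b => B a b) (f i) v := by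
  classical
  induction s using Finset.induction_on with
  | empty => simp [hB_zero_left]
  | insert a s ha ih => rw [Finset.sum_insert ha, Finset.sum_insert ha, hB_add_left, ih]

theorem hB_sum_right {ι : Type} (s : Finset ι) (f : ι → Cn n) (u : Cn n) :
    hB (fun a b => B a b) u (∑ i ∈ s, f i) = ∑ i ∈ s, hB (fun a b => B a b) u (f i) := by
  classical
  induction s using Finset.induction_on with
  | empty => simp [hB_zero_right]
  | insert a s ha ih => rw [Finset.sum_insert ha, Finset.sum_insert ha, hB_add_right, ih]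

theorem eq_sum_single (u : Cn n) : u = ∑ p, u p • (Pi.single p 1 : Cn n) := by
  ext i
  simp [Finset.sum_apply, Pi.single_apply]

theorem hB_expand (u v : Cn n) : hB (fun a b => B a b) u v =
    ∑ p, ∑ q, u p * conj (v q) * hB (fun a b => B a b) (Pi.single p 1) (Pi.single q 1) := by
  conv_lhs => rw [eq_sum_single u, eq_sum_single v]
  rw [hB_sum_left]
  refine Finset.sum_congr rfl fun p _ => ?_
  rw [hB_sum_right]
  refine Finset.sum_congr rfl fun q _ => ?_
  rw [hB_smul_left, hB_smul_right]
  ring

end lin

/-- The algebraic part of the statement. -/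
theorem trace_id {n : ℕ} (H H' J L : Matrix (Fin n) (Fin n) ℂ)
    (hH : H = J.transpose * H' * J.map conj) :
    ∑ j, ∑ k, H.adjugate k j * (∑ p, ∑ q, J p j * conj (J q k) * L p q) =
      (J.det * conj J.det) * ∑ j, ∑ k, H'.adjugate k j * L j k := by
  have e1 : ∀ (A C : Matrix (Fin n) (Fin n) ℂ), ∑ j, ∑ k, A k j * C j k = (A * C).trace := by
    intro A C
    rw [Finset.sum_comm]
    simp [Matrix.trace, Matrix.mul_apply]
  have e2 : ∀ j k, (∑ p, ∑ q, J p j * conj (J q k) * L p q) =
      (J.transpose * L * J.map conj) j k := by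
    intro j k
    simp only [Matrix.mul_apply, Matrix.transpose_apply, Matrix.map_apply]
    rw [Finset.sum_comm]
    refine Finset.sum_congr rfl fun q _ => ?_
    rw [Finset.sum_mul]
    refine Finset.sum_congr rfl fun p _ => ?_
    ring
  simp only [e2]
  rw [e1, e1, hH, Matrix.adjugate_mul_distrib, Matrix.adjugate_mul_distrib]
  have e3 : (J.map conj).adjugate * (H'.adjugate * J.transpose.adjugate) *
      (J.transpose * L * J.map conj) =
      (J.map conj).adjugate * (H'.adjugate * ((J.transpose.adjugate * J.transpose) * L) *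
        J.map conj) := by
    simp only [Matrix.mul_assoc]
  rw [e3, Matrix.trace_mul_comm, Matrix.mul_assoc, Matrix.mul_adjugate, Matrix.adjugate_mul,
    Matrix.det_transpose]
  have e4 : (J.map conj).det = conj J.det := by
    rw [RingHom.map_det]
    rfl
  rw [e4]
  simp only [Matrix.smul_mul, Matrix.mul_smul, Matrix.one_mul, Matrix.mul_one, Matrix.trace_smul,
    smul_eq_mul]
  ring

theorem phnat : S_PHNAT := by
  intro n M H T hM hmaps hT hinv φ hφ x hx
  have hTx : T x ∈ M := hmaps x hx
  have hMx : M ∈ 𝓝 x := hM.mem_nhds hx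
  have hMTx : M ∈ 𝓝 (T x) := hM.mem_nhds hTx
  have hTd : ∀ y ∈ M, DifferentiableAt ℂ T y := fun y hy =>
    (hT y hy).differentiableAt (hM.mem_nhds hy)
  have hφd : ∀ y ∈ M, DifferentiableAt ℝ φ y := fun y hy =>
    ((hφ.differentiableOn (by simp)) y hy).differentiableAt (hM.mem_nhds hy)
  have hφ2 : DifferentiableAt ℝ (fderiv ℝ φ) (T x) := by
    have h1 : ContDiffOn ℝ ∞ (fderiv ℝ φ) M := by
      have := ((contDiffOn_infty_iff_fderiv_of_isOpen hM).1 hφ).2
      exact this
    exact ((h1.differentiableOn (by simp)) _ hTx).differentiableAt hMTx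
  set B := fderiv ℝ (fderiv ℝ φ) (T x) with hBdef
  set J := fderiv ℂ T x with hJ
  have hJR : fderiv ℝ T x = J.restrictScalars ℝ := ((hTd x hx).fderiv_restrictScalars ℝ)
  have hhess : ∀ u v, hess φ (T x) u v = B u v := by
    intro u v
    have := (hφ2.hasFDerivAt.clm_apply (hasFDerivAt_const v (T x))).fderiv
    simp only [hess]
    rw [this]
    simp [hBdef]
  -- the chain rule
  have hq2 : ∀ v, DifferentiableAt ℂ (fun y => fderiv ℂ T y v) x := by
    intro v
    have h1 := holo_fderiv hM hT
    exact (((h1 x hx).differentiableAt hMx)).clm_apply (differentiableAt_const v)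
  set q : Cn n → Cn n → Cn n := fun u v => fderiv ℂ (fun y => fderiv ℂ T y v) x u with hq
  have hchain : ∀ u v, hess (φ ∘ T) x u v = B (J u) (J v) + fderiv ℝ φ (T x) (q u v) := by
    intro u v
    have hev : (fun y => fderiv ℝ (φ ∘ T) y v) =ᶠ[𝓝 x]
        fun y => fderiv ℝ φ (T y) (fderiv ℂ T y v) := by
      filter_upwards [hMx] with y hy
      rw [fderiv_comp y (hφd _ (hmaps y hy)) ((hTd y hy).restrictScalars ℝ),
        (hTd y hy).fderiv_restrictScalars ℝ]
      rfl
    have hA : HasFDerivAt (fun y => fderiv ℝ φ (T y)) (B.comp (J.restrictScalars ℝ)) x := by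
      have h1 : HasFDerivAt T (J.restrictScalars ℝ) x :=
        ((hTd x hx).hasFDerivAt).restrictScalars ℝ
      exact hφ2.hasFDerivAt.comp x h1
    have hC : HasFDerivAt (fun y => fderiv ℂ T y v)
        ((fderiv ℂ (fun y => fderiv ℂ T y v) x).restrictScalars ℝ) x :=
      ((hq2 v).hasFDerivAt).restrictScalars ℝ
    have h2 := (hA.clm_apply hC)
    simp only [hess]
    rw [hev.fderiv_eq, h2.fderiv]
    simp only [_root_.add_apply, ContinuousLinearMap.comp_apply,
      ContinuousLinearMap.flip_apply, ContinuousLinearMap.coe_restrictScalars']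
    rw [add_comm]
  have hqI1 : ∀ u v, q (I • u) v = I • q u v := fun u v => by simp only [hq, map_smul]
  have hqI2 : ∀ u v, q u (I • v) = I • q u v := by
    intro u v
    simp only [hq, map_smul]
    rw [fderiv_fun_const_smul (hq2 v)]
    rfl
  -- the sesquilinear form
  have hmain : ∀ u v, hB (hess (φ ∘ T) x) u v = hB (fun a b => B a b) (J u) (J v) := by
    intro u v
    simp only [hB, hchain, hqI1, hqI2, map_smul]
    have h : I • (I • q u v) = - q u v := by rw [smul_smul, Complex.I_mul_I]; simp
    rw [h, map_neg]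
    push_cast
    ring
  rw [Lop_PH, Lop_PH]
  have h1 : hess φ (T x) = fun a b => B a b := by
    ext u v; exact hhess u v
  rw [h1]
  simp only [hmain]
  set Jm : Matrix (Fin n) (Fin n) ℂ := Matrix.of fun p j => J (Pi.single j 1) p with hJm
  have hH : H x = Jm.transpose * H (T x) * Jm.map conj := by
    ext i j
    have h2 := hinv x hx (Pi.single i 1) (Pi.single j 1)
    have h3 : hermi (H x) (Pi.single i 1) (Pi.single j 1) = H x i j := by
      simp [hermi, Pi.single_apply]
    rw [← h3, ← h2]
    simp only [hermi, Matrix.mul_apply, Matrix.transpose_apply, Matrix.map_apply, hJm,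
      Matrix.of_apply]
    rw [Finset.sum_comm]
    refine Finset.sum_congr rfl fun q _ => ?_
    rw [Finset.sum_mul]
    refine Finset.sum_congr rfl fun p _ => ?_
    ring
  have h4 : ∀ j k : Fin n, hB (fun a b => B a b) (J (Pi.single j 1)) (J (Pi.single k 1)) =
      ∑ p, ∑ q, Jm p j * conj (Jm q k) *
        hB (fun a b => B a b) (Pi.single p 1) (Pi.single q 1) := fun j k => by
    rw [hB_expand]
    rfl
  simp only [h4]
  have h5 := trace_id (H x) (H (T x)) Jm
    (Matrix.of fun p q => hB (fun a b => B a b) (Pi.single p 1) (Pi.single q 1)) hH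
  simp only [Matrix.of_apply] at h5
  rw [h5]
  have h6 : Jm.det = J.det := by
    rw [ContinuousLinearMap.det, ← LinearMap.det_toMatrix']
    congr 1
  rw [h6, Complex.mul_conj, Complex.re_ofReal_mul, Complex.normSq_eq_norm_sq]

end Pool.Agent.Helper22.Lin
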