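import Pool.Agent.Helper95.Lin.Basics
import Pool.Agent.Helper95.Lin.GoalsA
import Pool.Agent.Helper95.Lin.GoalsD

/-! # Euler approximation of integral curves of generators -/

open Complex Metric Set Filter Topology MeasureTheory
open scoped ContDiff ComplexConjugate ComplexOrder

namespace Pool.Agent.Helper22.Lin

open Pool.Agent.Helper95.Lin

theorem exists_bound {b : ℕ} {D : Set (Cn b)} {V : Cn b → Cn b} (hV : DifferentiableOn ℂ V D)
    {K : Set (Cn b)} (hK : K ⊆ D) (hKc : IsCompact K) : ∃ M : ℝ, 0 ≤ M ∧ ∀ z ∈ K, ‖V z‖ ≤ M := by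
  obtain ⟨M, hM⟩ := hKc.exists_bound_of_continuousOn (hV.continuousOn.mono hK)
  exact ⟨max M 0, le_max_right _ _, fun z hz => (hM z hz).trans (le_max_left _ _)⟩

theorem exists_lip (hcau : S_CAU) {b : ℕ} {D : Set (Cn b)} (hD : IsOpen D) {V : Cn b → Cn b}
    (hV : DifferentiableOn ℂ V D) {K : Set (Cn b)} (hK : K ⊆ D) (hKc : IsCompact K) :
    ∃ L : ℝ, 0 ≤ L ∧ ∀ x ∈ K, ∀ y ∈ K, ‖V x - V y‖ ≤ L * ‖x - y‖ := by
  obtain ⟨K', hK', hKc', -, C, hC, h⟩ := @hcau b b D hD K hK hKc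
  obtain ⟨M, hM, hM'⟩ := exists_bound hV hK' hKc'
  exact ⟨C * M, mul_nonneg hC hM, (h V hV M hM').2⟩

/-- Lipschitz estimate along an integral curve. -/
theorem sol_lip {b : ℕ} {D : Set (Cn b)} {V : Cn b → Cn b} {z : Cn b} {T : ℝ} {x : ℝ → Cn b}
    (hx : Sol D V z T x) {Q : Set (Cn b)} {M : ℝ} (hQ : ∀ t ∈ Icc (0 : ℝ) T, x t ∈ Q)
    (hM : ∀ y ∈ Q, ‖V y‖ ≤ M) {s t : ℝ} (hs : s ∈ Icc (0 : ℝ) T) (ht : t ∈ Icc (0 : ℝ) T) :
    ‖x t - x s‖ ≤ M * ‖t - s‖ :=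
  Convex.norm_image_sub_le_of_norm_hasDerivWithin_le (f := x) (f' := fun t => V (x t))
    (fun u hu => (hx.2 u hu).2) (fun u hu => hM _ (hQ u hu)) (convex_Icc _ _) hs ht

/-- The quadratic error of an Euler step. -/
theorem sol_quad {b : ℕ} {D : Set (Cn b)} {V : Cn b → Cn b} {z : Cn b} {T : ℝ} {x : ℝ → Cn b}
    (hx : Sol D V z T x) {Q : Set (Cn b)} {M L : ℝ} (hL : 0 ≤ L)
    (hQ : ∀ t ∈ Icc (0 : ℝ) T, x t ∈ Q) (hM : ∀ y ∈ Q, ‖V y‖ ≤ M)
    (hLip : ∀ x ∈ Q, ∀ y ∈ Q, ‖V x - V y‖ ≤ L * ‖x - y‖) {s h : ℝ} (hs : s ∈ Icc (0 : ℝ) T)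
    (hh : 0 ≤ h) (hsh : s + h ≤ T) : ‖x (s + h) - x s - h • V (x s)‖ ≤ L * M * h ^ 2 := by
  have hM0 : 0 ≤ M := (norm_nonneg _).trans (hM _ (hQ s hs))
  have hsub : Icc s (s + h) ⊆ Icc (0 : ℝ) T := Icc_subset_Icc hs.1 hsh
  have h1 := Convex.norm_image_sub_le_of_norm_hasDerivWithin_le
    (f := fun u => x u - (u - s) • V (x s)) (f' := fun u => V (x u) - V (x s))
    (s := Icc s (s + h)) (C := L * M * h) (x := s) (y := s + h)
    (fun u hu => by
      have h2 := ((hx.2 u (hsub hu)).2).mono hsub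
      have h3 : HasDerivWithinAt (fun u : ℝ => (u - s) • V (x s)) ((1 : ℝ) • V (x s))
          (Icc s (s + h)) u :=
        (((hasDerivAt_id u).sub_const s).smul_const (V (x s))).hasDerivWithinAt
      rw [one_smul] at h3
      exact h2.sub h3)
    (fun u hu => by
      have h4 : u ∈ Icc (0 : ℝ) T := hsub hu
      refine (hLip _ (hQ u h4) _ (hQ s hs)).trans ?_
      have h5 := sol_lip hx hQ hM hs h4
      have h6 : ‖u - s‖ ≤ h := by
        rw [Real.norm_eq_abs, abs_of_nonneg (by linarith [hu.1])]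
        linarith [hu.2]
      calc L * ‖x u - x s‖ ≤ L * (M * ‖u - s‖) := mul_le_mul_of_nonneg_left h5 hL
        _ ≤ L * (M * h) := by gcongr
        _ = L * M * h := by ring)
    (convex_Icc _ _) (left_mem_Icc.2 (by linarith)) (right_mem_Icc.2 (by linarith))
  have e1 : (x (s + h) - (s + h - s) • V (x s)) - (x s - (s - s) • V (x s)) =
      x (s + h) - x s - h • V (x s) := by
    simp only [add_sub_cancel_left, sub_self, zero_smul, sub_zero]
    abel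
  have e2 : ‖s + h - s‖ = h := by rw [add_sub_cancel_left, Real.norm_eq_abs, abs_of_nonneg hh]
  have h1' : ‖(x (s + h) - (s + h - s) • V (x s)) - (x s - (s - s) • V (x s))‖ ≤
      L * M * h * ‖s + h - s‖ := h1
  rw [e1, e2] at h1'
  calc _ ≤ L * M * h * h := h1'
    _ = _ := by ring

/-- The core approximation lemma. -/
theorem euler_core (hsteps : S_STEPS) {b : ℕ} {D : Set (Cn b)} {Γ : Type} [Group Γ]
    {g : Γ → Cn b → Cn b} (hg : HAct D g) {V : Cn b → Cn b} (hV : InL D g V) {K : Set (Cn b)}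
    (hK : K ⊆ D) (hKc : IsCompact K) {T : ℝ} (hT : 0 < T) : ∃ K₀ ⊆ D, IsCompact K₀ ∧
    ∀ Q ⊆ D, IsCompact Q → K ⊆ Q → K₀ ⊆ Q → ∀ L M : ℝ, 0 ≤ L → 0 ≤ M → (∀ y ∈ Q, ‖V y‖ ≤ M) →
    (∀ x ∈ Q, ∀ y ∈ Q, ‖V x - V y‖ ≤ L * ‖x - y‖) → ∀ ε > 0, ∃ (γ : Γ) (σ : ℝ), 0 < σ ∧
    ∀ z ∈ K, ∀ t₁ ≤ T, ∀ x, Sol D V z t₁ x → (∀ t ∈ Icc 0 t₁, x t ∈ Q) → ∀ t ∈ Icc 0 t₁,
      g (γ ^ ⌊t / σ⌋₊) z ∈ K₀ ∧ ‖x t - g (γ ^ ⌊t / σ⌋₊) z‖ ≤ ε := by
  obtain ⟨MK, hMK0, hMK⟩ := exists_bound hV.1 hK hKc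
  obtain ⟨K₀, hK₀, hK₀c, τ₀, hτ₀, hst⟩ := hsteps hg K hK hKc (T * (MK + 1))
  refine ⟨K₀, hK₀, hK₀c, ?_⟩
  intro Q hQ hQc hKQ hK₀Q L M hL hM0 hM hLip ε hε
  set A : ℝ := T * Real.exp (L * T) with hA
  have hA0 : 0 < A := by positivity
  -- the constants
  set ε₁ : ℝ := min 1 (ε / (3 * A)) with hε₁
  have hε₁0 : 0 < ε₁ := by positivity
  obtain ⟨σ₀, hσ₀, hap⟩ := hV.2.2 Q hQ hQc ε₁ hε₁0
  set σ : ℝ := min (min (σ₀ / 2) (τ₀ / (MK + 1))) (ε / (3 * (A * (L * M) + M + 1))) with hσ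
  have hden : 0 < A * (L * M) + M + 1 := by positivity
  have hσ0 : 0 < σ := by positivity
  have hσ1 : σ < σ₀ := by
    have : σ ≤ σ₀ / 2 := (min_le_left _ _).trans (min_le_left _ _)
    linarith
  have hσ2 : (MK + 1) * σ ≤ τ₀ := by
    have : σ ≤ τ₀ / (MK + 1) := (min_le_left _ _).trans (min_le_right _ _)
    rw [le_div_iff₀ (by positivity)] at this
    linarith
  have hσ3 : σ * (A * (L * M) + M + 1) ≤ ε / 3 := by
    have : σ ≤ ε / (3 * (A * (L * M) + M + 1)) := min_le_right _ _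
    rw [le_div_iff₀ (by positivity)] at this
    linarith
  obtain ⟨γ, hγ⟩ := hap σ hσ0 hσ1
  refine ⟨γ, σ, hσ0, ?_⟩
  intro z hz t₁ ht₁ x hx hxQ
  have hact := hg.act
  have hone : ‖g γ z - z‖ ≤ (MK + 1) * σ := by
    have h1 := hγ z (hKQ hz)
    have h2 : ‖σ • V z‖ ≤ MK * σ := by
      rw [norm_smul, Real.norm_eq_abs, abs_of_pos hσ0, mul_comm]
      exact mul_le_mul_of_nonneg_right (hMK z hz) hσ0.le
    have h3 : ε₁ ≤ 1 := min_le_left _ _
    calc ‖g γ z - z‖ = ‖(g γ z - z - σ • V z) + σ • V z‖ := by congr 1; abel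
      _ ≤ ‖g γ z - z - σ • V z‖ + ‖σ • V z‖ := norm_add_le _ _
      _ ≤ ε₁ * σ + MK * σ := add_le_add h1 h2
      _ ≤ 1 * σ + MK * σ := by gcongr
      _ = (MK + 1) * σ := by ring
  have hmem : ∀ j : ℕ, j * σ ≤ T → g (γ ^ j) z ∈ K₀ := by
    intro j hj
    refine hst γ ((MK + 1) * σ) (by positivity) hσ2 z hz hone j ?_
    calc (j : ℝ) * ((MK + 1) * σ) = (j * σ) * (MK + 1) := by ring
      _ ≤ T * (MK + 1) := by gcongr
  set c : ℝ := ε₁ + L * M * σ with hc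
  have hc0 : 0 ≤ c := by positivity
  have herr : ∀ j : ℕ, j * σ ≤ t₁ → ‖x (j * σ) - g (γ ^ j) z‖ ≤
      j * σ * c * Real.exp (L * (j * σ)) := by
    intro j
    induction j with
    | zero =>
      intro _
      have : x 0 = z := hx.1
      simp [this, hact.one z (hK hz)]
    | succ j ih =>
      intro hj
      push_cast at hj ⊢
      have hj1 : (j : ℝ) * σ ≤ t₁ := by nlinarith
      have hj0 : 0 ≤ (j : ℝ) * σ := by positivity
      have ih' := ih hj1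
      have hyK : g (γ ^ j) z ∈ K₀ := hmem j (hj1.trans ht₁)
      have hs : (j : ℝ) * σ ∈ Icc (0 : ℝ) t₁ := ⟨hj0, hj1⟩
      have h1 := sol_quad hx hL hxQ hM hLip hs hσ0.le (by linarith)
      have h2 := hγ _ (hK₀Q hyK)
      have h3 := hLip _ (hxQ _ hs) _ (hK₀Q hyK)
      have e1 : ((j : ℝ) + 1) * σ = j * σ + σ := by ring
      have e2 : g (γ ^ (j + 1)) z = g γ (g (γ ^ j) z) := hact.pow γ j (hK hz)
      rw [e1, e2]
      have hnorm : ‖x (j * σ + σ) - g γ (g (γ ^ j) z)‖ ≤ L * M * σ ^ 2 +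
          ‖x (j * σ) - g (γ ^ j) z‖ + σ * (L * ‖x (j * σ) - g (γ ^ j) z‖) + ε₁ * σ := by
        calc ‖x (j * σ + σ) - g γ (g (γ ^ j) z)‖
            = ‖(x (j * σ + σ) - x (j * σ) - σ • V (x (j * σ))) + (x (j * σ) - g (γ ^ j) z) +
              σ • (V (x (j * σ)) - V (g (γ ^ j) z)) -
              (g γ (g (γ ^ j) z) - g (γ ^ j) z - σ • V (g (γ ^ j) z))‖ := by
                congr 1
                rw [smul_sub]
                abel
          _ ≤ ‖x (j * σ + σ) - x (j * σ) - σ • V (x (j * σ))‖ + ‖x (j * σ) - g (γ ^ j) z‖ +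
              ‖σ • (V (x (j * σ)) - V (g (γ ^ j) z))‖ +
              ‖g γ (g (γ ^ j) z) - g (γ ^ j) z - σ • V (g (γ ^ j) z)‖ := by
                refine (norm_sub_le _ _).trans ?_
                gcongr
                refine (norm_add_le _ _).trans ?_
                gcongr
                exact norm_add_le _ _
          _ ≤ _ := by
                rw [norm_smul, Real.norm_eq_abs, abs_of_pos hσ0]
                gcongr
      set e := ‖x (j * σ) - g (γ ^ j) z‖ with he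
      have he0 : 0 ≤ e := norm_nonneg _
      have hexp : 1 + L * σ ≤ Real.exp (L * σ) := by
        have := Real.add_one_le_exp (L * σ)
        linarith
      have hexp2 : (1 : ℝ) ≤ Real.exp (L * (j * σ + σ)) := Real.one_le_exp (by positivity)
      calc ‖x (j * σ + σ) - g γ (g (γ ^ j) z)‖ ≤ _ := hnorm
        _ = (1 + L * σ) * e + σ * c := by rw [hc]; ring
        _ ≤ Real.exp (L * σ) * (j * σ * c * Real.exp (L * (j * σ))) + σ * c * 1 := by
            rw [mul_one]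
            gcongr
        _ ≤ Real.exp (L * σ) * (j * σ * c * Real.exp (L * (j * σ))) +
            σ * c * Real.exp (L * (j * σ + σ)) := by gcongr
        _ = (j * σ + σ) * c * Real.exp (L * (j * σ + σ)) := by
            have : Real.exp (L * (j * σ + σ)) = Real.exp (L * σ) * Real.exp (L * (j * σ)) := by
              rw [← Real.exp_add]; ring_nf
            rw [this]; ring
  intro t ht
  have ht0 : 0 ≤ t / σ := div_nonneg ht.1 hσ0.le
  have hf1 : (⌊t / σ⌋₊ : ℝ) * σ ≤ t := by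
    have := Nat.floor_le ht0
    calc (⌊t / σ⌋₊ : ℝ) * σ ≤ t / σ * σ := by gcongr
      _ = t := by field_simp
  have hf2 : t ≤ (⌊t / σ⌋₊ : ℝ) * σ + σ := by
    have := (Nat.lt_floor_add_one (t / σ)).le
    calc t = t / σ * σ := by field_simp
      _ ≤ (⌊t / σ⌋₊ + 1) * σ := by gcongr
      _ = _ := by ring
  set j := ⌊t / σ⌋₊ with hj
  have hjt : (j : ℝ) * σ ≤ t₁ := hf1.trans ht.2
  refine ⟨hmem j (hjt.trans ht₁), ?_⟩
  have hj0 : (0 : ℝ) ≤ (j : ℝ) * σ := by positivity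
  have h1 := sol_lip hx hxQ hM (s := j * σ) (t := t) ⟨hj0, hjt⟩ ht
  have h2 : ‖t - j * σ‖ ≤ σ := by
    rw [Real.norm_eq_abs, abs_of_nonneg (by linarith)]
    linarith
  have h3 := herr j hjt
  have hjT : (j : ℝ) * σ ≤ T := hjt.trans ht₁
  have h4 : (j : ℝ) * σ * c * Real.exp (L * (j * σ)) ≤ A * c := by
    calc (j : ℝ) * σ * c * Real.exp (L * (j * σ)) ≤ T * c * Real.exp (L * T) := by gcongr
      _ = A * c := by rw [hA]; ring
  have h5 : A * ε₁ ≤ ε / 3 := by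
    have : ε₁ ≤ ε / (3 * A) := min_le_right _ _
    rw [le_div_iff₀ (by positivity)] at this
    linarith
  calc ‖x t - g (γ ^ j) z‖ = ‖(x t - x (j * σ)) + (x (j * σ) - g (γ ^ j) z)‖ := by
        congr 1; abel
    _ ≤ ‖x t - x (j * σ)‖ + ‖x (j * σ) - g (γ ^ j) z‖ := norm_add_le _ _
    _ ≤ M * σ + A * c := by
        refine add_le_add (h1.trans ?_) (h3.trans h4)
        gcongr
    _ ≤ ε := by
        rw [hc]
        nlinarith

theorem euler (hsteps : S_STEPS) (hcau : S_CAU) : S_EULER := by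
  intro b D Γ _ g hg V hV K hK hKc T hT
  have hDo : IsOpen D := hg.act.isOpen
  obtain ⟨K₀, hK₀, hK₀c, hcore⟩ := euler_core hsteps hg hV hK hKc hT
  have hcl : IsClosed K₀ := hK₀c.isClosed
  have claim1 : ∀ z ∈ K, ∀ t₁ ≤ T, ∀ x, Sol D V z t₁ x → ∀ t ∈ Icc 0 t₁, x t ∈ K₀ := by
    intro z hz t₁ ht₁ x hx t ht
    have hxc : ContinuousOn x (Icc 0 t₁) := fun u hu => (hx.2 u hu).2.continuousWithinAt
    have hQc : IsCompact (K ∪ K₀ ∪ x '' Icc 0 t₁) :=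
      (hKc.union hK₀c).union (isCompact_Icc.image_of_continuousOn hxc)
    have hQ : K ∪ K₀ ∪ x '' Icc 0 t₁ ⊆ D := by
      refine union_subset (union_subset hK hK₀) ?_
      rintro _ ⟨u, hu, rfl⟩
      exact (hx.2 u hu).1
    obtain ⟨M, hM0, hM⟩ := exists_bound hV.1 hQ hQc
    obtain ⟨L, hL0, hL⟩ := exists_lip hcau hDo hV.1 hQ hQc
    rw [← hcl.closure_eq]
    rw [Metric.mem_closure_iff]
    intro ε hε
    obtain ⟨γ, σ, -, h⟩ := hcore _ hQ hQc (subset_union_left.trans subset_union_left)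
      (subset_union_right.trans subset_union_left) L M hL0 hM0 hM hL (ε / 2) (by positivity)
    obtain ⟨h1, h2⟩ := h z hz t₁ ht₁ x hx (fun u hu => Or.inr ⟨u, hu, rfl⟩) t ht
    exact ⟨_, h1, by rw [dist_eq_norm]; linarith⟩
  refine ⟨K ∪ K₀, union_subset hK hK₀, hKc.union hK₀c,
    fun z hz t₁ ht₁ x hx t ht => Or.inr (claim1 z hz t₁ ht₁ x hx t ht), ?_⟩
  intro t ht ε hε
  have hQ : K ∪ K₀ ⊆ D := union_subset hK hK₀
  have hQc : IsCompact (K ∪ K₀) := hKc.union hK₀c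
  obtain ⟨M, hM0, hM⟩ := exists_bound hV.1 hQ hQc
  obtain ⟨L, hL0, hL⟩ := exists_lip hcau hDo hV.1 hQ hQc
  obtain ⟨γ, σ, -, h⟩ := hcore _ hQ hQc subset_union_left subset_union_right L M hL0 hM0 hM hL ε hε
  refine ⟨γ ^ ⌊t / σ⌋₊, fun z hz x hx => ?_⟩
  exact (h z hz t ht.2 x hx (fun u hu => Or.inr (claim1 z hz t ht.2 x hx u hu)) t
    ⟨ht.1, le_rfl⟩).2

end Pool.Agent.Helper22.Lin
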