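import Pool.Agent.Helper95.Lin.Basics
import Pool.Agent.Helper95.Lin.GoalsG
import Pool.Agent.Helper22.Lin.Euler

/-! # Lower bound for the derivatives of an extremal family -/

open Complex Metric Set Filter Topology MeasureTheory
open scoped ContDiff ComplexConjugate ComplexOrder

namespace Pool.Agent.Helper22.Lin

open Pool.Agent.Helper95.Lin

theorem adj_bound {m : ℕ} (N : Matrix (Fin m) (Fin m) ℂ) {B : ℝ} (hB1 : 1 ≤ B)
    (hB : ∀ i j, ‖N i j‖ ≤ B) (i j : Fin m) : ‖N.adjugate i j‖ ≤ m.factorial * B ^ m := by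
  rw [Matrix.adjugate_apply]
  have h := Matrix.det_le (A := N.updateRow j (Pi.single i 1)) (abv := NormedField.toAbsoluteValue ℂ)
    (x := B) (fun k l => by
      change ‖N.updateRow j (Pi.single i 1) k l‖ ≤ B
      by_cases hk : k = j
      · subst hk
        rw [Matrix.updateRow_self]
        by_cases hl : l = i
        · subst hl; simpa using hB1
        · simp [hl]; linarith
      · rw [Matrix.updateRow_ne hk]
        exact hB k l)
  have h' : ‖(N.updateRow j (Pi.single i 1)).det‖ ≤ (Fintype.card (Fin m)).factorial •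
    B ^ Fintype.card (Fin m) := h
  simpa using h'

theorem lower (hcareq : S_CAREQ) (hcarc : S_CARC) (hcau : S_CAU) : S_LOWER := by
  intro b D Γ _ g m V A hg hF f hf hext hpos K hK hKc
  have hD : IsOpen D := hg.act.isOpen
  have hV : ∀ i, DifferentiableOn ℂ (V i) D := fun i => (hF.inL i).1
  obtain ⟨-, -, hcont⟩ := hcarc D hD V hV
  -- lower bound for the volume
  have hc₀ : ∃ c₀ > 0, ∀ x ∈ K, c₀ ≤ carF D V x := by
    rcases K.eq_empty_or_nonempty with he | hne
    · exact ⟨1, one_pos, by simp [he]⟩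
    · obtain ⟨x₀, hx₀, hmin⟩ := hKc.exists_isMinOn hne (hcont.mono hK)
      exact ⟨carF D V x₀, hpos x₀ (hK hx₀), fun x hx => hmin hx⟩
  obtain ⟨c₀, hc₀, hc₀K⟩ := hc₀
  obtain ⟨K', hK', hK'c, -, C, hC, hcau'⟩ := @hcau b m D hD K hK hKc
  have hbd : ∀ i, ∃ M : ℝ, 0 ≤ M ∧ ∀ z ∈ K, ‖V i z‖ ≤ M := fun i => exists_bound (hV i) hK hKc
  choose M hM0 hM using hbd
  set B : ℝ := 1 + C * 1 * ∑ i, M i with hB
  have hMs : 0 ≤ ∑ i, M i := Finset.sum_nonneg fun i _ => hM0 i
  have hB1 : 1 ≤ B := by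
    have : 0 ≤ C * 1 * ∑ i, M i := by positivity
    linarith
  set E : ℝ := m.factorial * B ^ m with hE
  have hE0 : 0 < E := by positivity
  have hm : (0 : ℝ) < m := by exact_mod_cast hF.pos
  refine ⟨c₀ / (m * E), by positivity, ?_⟩
  intro y hy γ hγ v
  set x := g γ y with hx
  have hxD : x ∈ D := hK hγ
  have hact := hg.act
  -- the transformed family
  set F : Cn b → Cn m := fun z j => f j (g γ⁻¹ z) with hFdef
  have hFd : DifferentiableOn ℂ F D := by
    rw [differentiableOn_pi]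
    intro j
    exact (hf j).1.comp (hact.holo γ⁻¹) (hact.maps γ⁻¹)
  have hF1 : ∀ z ∈ K', ‖F z‖ ≤ 1 := fun z hz => by
    rw [pi_norm_le_iff_of_nonneg zero_le_one]
    exact fun j => (hf j).2 _ (hact.maps _ _ (hK' hz))
  have hDF := (hcau' F hFd 1 hF1).1 x hγ
  have hFdx : DifferentiableAt ℂ F x := (hFd x hxD).differentiableAt (hD.mem_nhds hxD)
  set N : Matrix (Fin m) (Fin m) ℂ := Matrix.of fun k j => fderiv ℂ F x (V k x) j with hN
  have hNb : ∀ k j, ‖N k j‖ ≤ B := by
    intro k j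
    calc ‖N k j‖ ≤ ‖fderiv ℂ F x (V k x)‖ := norm_le_pi_norm (fderiv ℂ F x (V k x)) j
      _ ≤ ‖fderiv ℂ F x‖ * ‖V k x‖ := ContinuousLinearMap.le_opNorm _ _
      _ ≤ (C * 1) * M k := by gcongr; exact hM k x hγ
      _ ≤ (C * 1) * ∑ i, M i := by
          gcongr
          exact Finset.single_le_sum (f := M) (fun i _ => hM0 i) (Finset.mem_univ k)
      _ ≤ B := by rw [hB]; linarith
  -- the relation between the derivatives
  have hgd : DifferentiableAt ℂ (g γ) y := ((hact.holo γ) y hy).differentiableAt (hD.mem_nhds hy)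
  have hfd : ∀ j, ∀ u, fderiv ℂ (f j) y u = fderiv ℂ F x (fderiv ℂ (g γ) y u) j := by
    intro j u
    have hev : f j =ᶠ[𝓝 y] fun z => F (g γ z) j := by
      filter_upwards [hD.mem_nhds hy] with z hz
      simp only [hFdef, hact.inv_left γ hz]
    rw [hev.fderiv_eq]
    have h1 : HasFDerivAt (fun z => F (g γ z)) ((fderiv ℂ F x).comp (fderiv ℂ (g γ) y)) y :=
      (hFdx.hasFDerivAt).comp y hgd.hasFDerivAt
    have h2 := (hasFDerivAt_pi'.1 h1) j
    rw [h2.fderiv]
    rfl
  have hvm : ∀ i j, fderiv ℂ (f j) y (V i y) = ∑ k, (A γ k i : ℂ) * N k j := by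
    intro i j
    rw [hfd, hF.ad γ i y hy]
    simp only [map_sum, Finset.sum_apply]
    refine Finset.sum_congr rfl fun k _ => ?_
    have : (A γ k i • V k (g γ y)) = ((A γ k i : ℂ) • V k x) := by
      ext l; simp [hx]
    rw [this, map_smul]
    rfl
  have hdet : (vm V f y).det = ((A γ).det : ℂ) * N.det := by
    have : vm V f y = ((A γ).map (algebraMap ℝ ℂ)).transpose * N := by
      ext i j
      simp only [vm, Matrix.of_apply, Matrix.mul_apply, Matrix.transpose_apply, Matrix.map_apply]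
      exact hvm i j
    rw [this, Matrix.det_mul, Matrix.det_transpose]
    congr 1
    exact (RingHom.map_det (algebraMap ℝ ℂ) (A γ)).symm
  have h1 := hext y hy
  have h2 := hcareq hact V A hV hF.ad γ y hy
  rw [hdet, norm_mul, Complex.norm_real, Real.norm_eq_abs, ← h2] at h1
  have hAd : |(A γ).det| ≠ 0 := by
    intro h0
    rw [h0, zero_mul] at h2
    exact (hpos y hy).ne h2
  have hNdet : ‖N.det‖ = carF D V x := mul_left_cancel₀ hAd h1
  have hNlow : c₀ ≤ ‖N.det‖ := by rw [hNdet]; exact hc₀K x hγ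
  -- the vectors
  set u : Fin m → ℂ := fun j => fderiv ℂ (f j) y (∑ i, v i • V i y) with hu
  set w : Fin m → ℝ := (A γ).mulVec v with hw
  have huw : ∀ j, u j = ∑ k, (w k : ℂ) * N k j := by
    intro j
    have e1 : u j = ∑ i, (v i : ℂ) * fderiv ℂ (f j) y (V i y) := by
      simp only [hu, map_sum]
      refine Finset.sum_congr rfl fun i _ => ?_
      have : (v i • V i y) = ((v i : ℂ) • V i y) := by ext l; simp
      rw [this, map_smul, smul_eq_mul]
    rw [e1]
    simp only [hvm, Finset.mul_sum]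
    rw [Finset.sum_comm]
    refine Finset.sum_congr rfl fun k _ => ?_
    rw [hw, Matrix.mulVec, dotProduct]
    push_cast
    rw [Finset.sum_mul]
    refine Finset.sum_congr rfl fun i _ => ?_
    ring
  have hwdet : ∀ i, (w i : ℂ) * N.det = ∑ j, u j * N.adjugate j i := by
    intro i
    simp only [huw, Finset.sum_mul]
    rw [Finset.sum_comm]
    have e2 : ∀ k, ∑ j, (w k : ℂ) * N k j * N.adjugate j i = (w k : ℂ) * (N.det * (if k = i then 1 else 0)) := by
      intro k
      have e3 := congr_fun (congr_fun (Matrix.mul_adjugate N) k) i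
      rw [Matrix.mul_apply, Matrix.smul_apply, Matrix.one_apply, smul_eq_mul] at e3
      rw [← e3, Finset.mul_sum]
      refine Finset.sum_congr rfl fun j _ => ?_
      ring
    simp only [e2]
    simp
  have hne : (Finset.univ : Finset (Fin m)).Nonempty := ⟨⟨0, hF.pos⟩, Finset.mem_univ _⟩
  obtain ⟨j₀, -, hj₀⟩ := Finset.exists_max_image Finset.univ (fun j => ‖u j‖) hne
  refine ⟨j₀, ?_⟩
  have hwi : ∀ i, c₀ * |w i| ≤ m * E * ‖u j₀‖ := by
    intro i
    calc c₀ * |w i| ≤ ‖N.det‖ * |w i| := by gcongr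
      _ = ‖(w i : ℂ) * N.det‖ := by
          rw [norm_mul, Complex.norm_real, Real.norm_eq_abs, mul_comm]
      _ = ‖∑ j, u j * N.adjugate j i‖ := by rw [hwdet i]
      _ ≤ ∑ j, ‖u j * N.adjugate j i‖ := norm_sum_le _ _
      _ ≤ ∑ _j : Fin m, ‖u j₀‖ * E := by
          refine Finset.sum_le_sum fun j _ => ?_
          rw [norm_mul]
          gcongr
          · exact hj₀ j (Finset.mem_univ j)
          · exact adj_bound N hB1 hNb j i
      _ = m * E * ‖u j₀‖ := by
          rw [Finset.sum_const, Finset.card_univ, Fintype.card_fin, nsmul_eq_mul]; ring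
  have hwn : ‖w‖ ≤ (m * E * ‖u j₀‖) / c₀ := by
    rw [pi_norm_le_iff_of_nonneg (by positivity)]
    intro i
    rw [le_div_iff₀ hc₀, Real.norm_eq_abs, mul_comm]
    exact hwi i
  calc c₀ / (m * E) * ‖w‖ ≤ c₀ / (m * E) * ((m * E * ‖u j₀‖) / c₀) := by gcongr
    _ = ‖u j₀‖ := by field_simp

end Pool.Agent.Helper22.Lin
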