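import Pool.Agent.Helper95.Lin.Basics
import Pool.Agent.Helper95.Lin.GoalsH

/-! # Equivariant partition of unity -/

open Complex Metric Set Filter Topology MeasureTheory
open scoped ContDiff ComplexConjugate ComplexOrder

namespace Pool.Agent.Helper22.Lin

open Pool.Agent.Helper95.Lin

theorem pu : S_PU := by
  intro n M Γ _ T hT hproper hcoc
  obtain ⟨K, hK, hKc, hcov⟩ := hcoc
  obtain ⟨K', hK'c, hKK', hK'M⟩ := exists_compact_between hKc hT.isOpen hK
  obtain ⟨χ₀, hsupp, hsm, hrange⟩ :=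
    (isOpen_interior (s := K')).exists_contDiff_support_eq (n := (⊤ : ℕ∞)) (E := Cn n)
  have hts : tsupport χ₀ ⊆ K' := by
    rw [tsupport, hsupp]
    exact closure_minimal interior_subset hK'c.isClosed
  have htc : IsCompact (tsupport χ₀) := hK'c.of_isClosed_subset (isClosed_tsupport _) hts
  have htM : tsupport χ₀ ⊆ M := hts.trans hK'M
  have h0 : ∀ x, 0 ≤ χ₀ x := fun x => (hrange (mem_range_self x)).1
  have hpos : ∀ x ∈ K, 0 < χ₀ x := by
    intro x hx
    have : x ∈ Function.support χ₀ := by rw [hsupp]; exact hKK' hx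
    exact lt_of_le_of_ne (h0 x) (Ne.symm this)
  have hfin : ∀ Q ⊆ M, IsCompact Q → {γ | ∃ x ∈ Q, T γ x ∈ tsupport χ₀}.Finite := by
    intro Q hQ hQc
    refine (hproper (Q ∪ tsupport χ₀) (union_subset hQ htM) (hQc.union htc)).subset ?_
    rintro γ ⟨x, hx, hx'⟩
    exact ⟨x, Or.inl hx, Or.inr hx'⟩
  have hfs : ∀ x ∈ M, (Function.support fun γ => χ₀ (T γ x)).Finite := by
    intro x hx
    refine (hfin {x} (by simpa using hx) isCompact_singleton).subset ?_
    intro γ hγ
    exact ⟨x, rfl, subset_tsupport _ hγ⟩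
  set S : Cn n → ℝ := fun x => ∑ᶠ γ, χ₀ (T γ x) with hS
  have hSpos : ∀ x ∈ M, 0 < S x := by
    intro x hx
    obtain ⟨γ, hγ⟩ := hcov x hx
    exact (hpos _ hγ).trans_le (single_le_finsum γ (hfs x hx) fun γ' => h0 _)
  have hSinv : ∀ γ, ∀ x ∈ M, S (T γ x) = S x := by
    intro γ x hx
    simp only [hS]
    rw [← finsum_comp_equiv (Equiv.mulRight γ) (f := fun γ' => χ₀ (T γ' x))]
    refine finsum_congr fun γ' => ?_
    rw [Equiv.coe_mulRight, hT.mul _ _ x hx]
  have hSsm : ∀ x ∈ M, ContDiffAt ℝ ∞ S x := by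
    intro x hx
    obtain ⟨Q, hQc, hxQ, hQM⟩ := exists_compact_subset hT.isOpen hx
    have hF := hfin Q hQM hQc
    have hev : S =ᶠ[𝓝 x] fun y => ∑ γ ∈ hF.toFinset, χ₀ (T γ y) := by
      filter_upwards [isOpen_interior.mem_nhds hxQ] with y hy
      simp only [hS]
      refine finsum_eq_sum_of_support_subset _ ?_
      intro γ hγ
      simp only [Set.Finite.coe_toFinset, mem_setOf_eq]
      exact ⟨y, interior_subset hy, subset_tsupport _ hγ⟩
    refine ContDiffAt.congr_of_eventuallyEq ?_ hev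
    refine ContDiffAt.sum fun γ _ => ?_
    have h1 : ContDiffAt ℝ ∞ (T γ) x := (hT.contDiffOn γ).contDiffAt (hT.isOpen.mem_nhds hx)
    exact (hsm.contDiffAt).comp x h1
  have hsub : tsupport (fun x => χ₀ x / S x) ⊆ tsupport χ₀ := by
    refine closure_mono ?_
    intro x hx h
    apply hx
    simp [h]
  refine ⟨fun x => χ₀ x / S x, ⟨⟨?_, ?_, hsub.trans htM⟩, ?_, ?_, ?_⟩⟩
  · rw [contDiff_iff_contDiffAt]
    intro x
    by_cases hx : x ∈ M
    · exact (hsm.contDiffAt).div (hSsm x hx) (hSpos x hx).ne'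
    · have hx' : x ∉ tsupport χ₀ := fun h => hx (htM h)
      have hev : (fun x => χ₀ x / S x) =ᶠ[𝓝 x] fun _ => 0 := by
        filter_upwards [(isClosed_tsupport χ₀).isOpen_compl.mem_nhds hx'] with y hy
        rw [image_eq_zero_of_notMem_tsupport hy, zero_div]
      exact contDiffAt_const.congr_of_eventuallyEq hev
  · exact htc.of_isClosed_subset (isClosed_tsupport _) hsub
  · intro x
    by_cases hx : x ∈ M
    · exact div_nonneg (h0 x) (hSpos x hx).le
    · have hx' : x ∉ tsupport χ₀ := fun h => hx (htM h)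
      simp [image_eq_zero_of_notMem_tsupport hx']
  · intro Q hQ hQc
    refine (hfin Q hQ hQc).subset ?_
    rintro γ ⟨x, hx, hx'⟩
    exact ⟨x, hx, hsub hx'⟩
  · intro x hx
    have h1 : ∀ γ, χ₀ (T γ x) / S (T γ x) = (S x)⁻¹ * χ₀ (T γ x) := by
      intro γ
      rw [hSinv γ x hx, div_eq_mul_inv, mul_comm]
    simp only [h1]
    rw [← mul_finsum' _ _ (hfs x hx)]
    exact inv_mul_cancel₀ (hSpos x hx).ne'

end Pool.Agent.Helper22.Lin
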