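import Pool.Agent.Helper22.Lin.Euler

/-! # Limits of difference quotients are generators -/

open Complex Metric Set Filter Topology MeasureTheory
open scoped ContDiff ComplexConjugate ComplexOrder

namespace Pool.Agent.Helper22.Lin

open Pool.Agent.Helper95.Lin

theorem scale (hpwr : S_PWR) (hcau : S_CAU) : S_SCALE := by
  intro b D Γ _ g hg γ τ V hτ hτ0 hV hV0 happ
  refine ⟨hV, hV0, ?_⟩
  intro K hK hKc ε hε
  have hD : IsOpen D := hg.act.isOpen
  obtain ⟨K₁, hK₁c, hKK₁, hK₁⟩ := exists_compact_between hKc hD hK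
  obtain ⟨K₂, hK₂, hK₂c, hK₁₂, C', hC', hcau'⟩ := @hcau b b D hD K₁ hK₁ hK₁c
  obtain ⟨C, ρ, hC, hρ, hp⟩ := hpwr hg K₂ hK₂ hK₂c
  obtain ⟨M₀, hM₀, hMb⟩ := exists_bound hV hK₂ hK₂c
  set M : ℝ := M₀ + 1 with hM
  have hM1 : 0 < M := by positivity
  obtain ⟨δ, hδ, hthick⟩ := hKc.exists_thickening_subset_open isOpen_interior hKK₁
  set ε₁ : ℝ := min 1 (ε / (2 * (1 + M))) with hε₁
  have hε₁0 : 0 < ε₁ := by positivity
  set C'' : ℝ := C' * C * M * M with hC''
  have hC''0 : 0 ≤ C'' := by positivity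
  set σ₀ : ℝ := ε / (2 * (C'' + 1)) with hσ₀
  refine ⟨σ₀, by positivity, ?_⟩
  intro σ hσ hσσ₀
  have hev1 : ∀ᶠ k in atTop, τ k < min (ρ / M) (min (δ / M) (ε₁ * σ)) :=
    hτ0.eventually (gt_mem_nhds (by positivity))
  have hev2 := happ K₂ hK₂ hK₂c ε₁ hε₁0
  obtain ⟨k, hk1, hk2⟩ := (hev1.and hev2).exists
  have hτk := hτ k
  have h1 : M * τ k ≤ ρ := by
    have : τ k ≤ ρ / M := (hk1.le.trans (min_le_left _ _))
    rw [le_div_iff₀ hM1] at this
    linarith
  have h2 : M * τ k < δ := by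
    have : τ k < δ / M := (hk1.trans_le ((min_le_right _ _).trans (min_le_left _ _)))
    rw [lt_div_iff₀ hM1] at this
    linarith
  have h3 : τ k ≤ ε₁ * σ := hk1.le.trans ((min_le_right _ _).trans (min_le_right _ _))
  have hdisp : ∀ z ∈ K₂, ‖g (γ k) z - z‖ ≤ M * τ k := by
    intro z hz
    have e1 := hk2 z hz
    have e2 : ‖τ k • V z‖ ≤ M₀ * τ k := by
      rw [norm_smul, Real.norm_eq_abs, abs_of_pos hτk, mul_comm]
      exact mul_le_mul_of_nonneg_right (hMb z hz) hτk.le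
    have e3 : ε₁ ≤ 1 := min_le_left _ _
    calc ‖g (γ k) z - z‖ = ‖(g (γ k) z - z - τ k • V z) + τ k • V z‖ := by congr 1; abel
      _ ≤ ‖g (γ k) z - z - τ k • V z‖ + ‖τ k • V z‖ := norm_add_le _ _
      _ ≤ ε₁ * τ k + M₀ * τ k := add_le_add e1 e2
      _ ≤ 1 * τ k + M₀ * τ k := by gcongr
      _ = M * τ k := by rw [hM]; ring
  have hact := hg.act
  have hKK2 : K ⊆ K₂ := fun z hz => interior_subset (hK₁₂ (interior_subset (hKK₁ hz)))
  have hK12 : K₁ ⊆ K₂ := fun z hz => interior_subset (hK₁₂ hz)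
  -- Lipschitz estimate
  have hlip : ∀ i : ℕ, ∀ x ∈ K₁, ∀ y ∈ K₁, ‖(g (γ k ^ i) x - x) - (g (γ k ^ i) y - y)‖ ≤
      C' * (C * (i * (M * τ k))) * ‖x - y‖ := by
    intro i
    have hd : DifferentiableOn ℂ (fun z => g (γ k ^ i) z - z) D :=
      (hact.holo _).sub differentiableOn_id
    exact (hcau' (fun z => g (γ k ^ i) z - z) hd (C * (i * (M * τ k)))
      (fun z hz => (hp (γ k) (M * τ k) h1 z hz (hdisp z hz)).2 i)).2
  have hstep : ∀ x ∈ K, ∀ j : ℕ, ‖g (γ k ^ j) x - x - (j : ℝ) • (g (γ k) x - x)‖ ≤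
      C'' * ((j * τ k) ^ 2) := by
    intro x hx j
    have hxK1 : x ∈ K₁ := interior_subset (hKK₁ hx)
    have hyK1 : g (γ k) x ∈ K₁ := by
      refine interior_subset (hthick ?_)
      rw [mem_thickening_iff]
      exact ⟨x, hx, by rw [dist_eq_norm]; exact (hdisp x (hKK2 hx)).trans_lt h2⟩
    induction j with
    | zero => simp [hact.one x (hK hx)]
    | succ j ih =>
      have e1 : g (γ k ^ (j + 1)) x = g (γ k ^ j) (g (γ k) x) := hact.pow' (γ k) j (hK hx)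
      have e2 := hlip j _ hyK1 _ hxK1
      have e3 := hdisp x (hKK2 hx)
      have e4 : ‖g (γ k ^ (j + 1)) x - x - ((j + 1 : ℕ) : ℝ) • (g (γ k) x - x)‖ ≤
          C'' * ((j * τ k) ^ 2) + C'' * (j * τ k * τ k) := by
        calc _ = ‖(g (γ k ^ j) x - x - (j : ℝ) • (g (γ k) x - x)) +
            ((g (γ k ^ j) (g (γ k) x) - g (γ k) x) - (g (γ k ^ j) x - x))‖ := by
              rw [e1]
              congr 1
              push_cast
              rw [add_smul, one_smul]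
              abel
          _ ≤ _ := norm_add_le _ _
          _ ≤ C'' * ((j * τ k) ^ 2) + C' * (C * (j * (M * τ k))) * (M * τ k) := by
              refine add_le_add ih (e2.trans ?_)
              gcongr
          _ = _ := by rw [hC'']; ring
      refine e4.trans ?_
      push_cast
      have : C'' * ((j * τ k) ^ 2) + C'' * (j * τ k * τ k) ≤ C'' * (((j + 1) * τ k) ^ 2) := by
        have e5 : ((j : ℝ) + 1) ^ 2 = j ^ 2 + 2 * j + 1 := by ring
        rw [← mul_add]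
        refine mul_le_mul_of_nonneg_left ?_ hC''0
        have hj : (0 : ℝ) ≤ j := Nat.cast_nonneg j
        have h7 : 0 ≤ τ k ^ 2 := sq_nonneg _
        nlinarith [mul_nonneg hj h7]
      exact this
  set j := ⌊σ / τ k⌋₊ with hj
  have hdiv : 0 ≤ σ / τ k := by positivity
  have hj1 : (j : ℝ) * τ k ≤ σ := by
    have := Nat.floor_le hdiv
    calc (j : ℝ) * τ k ≤ σ / τ k * τ k := by gcongr
      _ = σ := by field_simp
  have hj2 : σ ≤ (j : ℝ) * τ k + τ k := by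
    have := (Nat.lt_floor_add_one (σ / τ k)).le
    calc σ = σ / τ k * τ k := by field_simp
      _ ≤ (j + 1) * τ k := by gcongr
      _ = _ := by ring
  have hj0 : 0 ≤ (j : ℝ) * τ k := by positivity
  refine ⟨γ k ^ j, fun x hx => ?_⟩
  have e1 := hstep x hx j
  have e2 := hk2 x (hKK2 hx)
  have e3 := hMb x (hKK2 hx)
  have e4 : ‖(j : ℝ) • (g (γ k) x - x - τ k • V x)‖ ≤ ε₁ * σ := by
    rw [norm_smul, Real.norm_eq_abs, Nat.abs_cast]
    calc (j : ℝ) * ‖g (γ k) x - x - τ k • V x‖ ≤ j * (ε₁ * τ k) := by gcongr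
      _ = ε₁ * (j * τ k) := by ring
      _ ≤ ε₁ * σ := by gcongr
  have e5 : ‖((j : ℝ) * τ k - σ) • V x‖ ≤ ε₁ * σ * M := by
    rw [norm_smul]
    have h8 : ‖(j : ℝ) * τ k - σ‖ ≤ ε₁ * σ := by
      rw [Real.norm_eq_abs, abs_le]
      constructor <;> linarith
    have h9 : ‖V x‖ ≤ M := by linarith
    gcongr
  have e6 : C'' * ((j * τ k) ^ 2) ≤ C'' * σ * σ := by
    calc C'' * ((j * τ k) ^ 2) ≤ C'' * σ ^ 2 := by gcongr
      _ = C'' * σ * σ := by ring
  have e7 : C'' * σ ≤ ε / 2 := by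
    have : σ ≤ ε / (2 * (C'' + 1)) := hσσ₀.le
    rw [le_div_iff₀ (by positivity)] at this
    nlinarith
  have e8 : ε₁ * (1 + M) ≤ ε / 2 := by
    have : ε₁ ≤ ε / (2 * (1 + M)) := min_le_right _ _
    rw [le_div_iff₀ (by positivity)] at this
    linarith
  calc ‖g (γ k ^ j) x - x - σ • V x‖
      = ‖(g (γ k ^ j) x - x - (j : ℝ) • (g (γ k) x - x)) +
        (j : ℝ) • (g (γ k) x - x - τ k • V x) + ((j : ℝ) * τ k - σ) • V x‖ := by
        congr 1
        rw [smul_sub (j : ℝ) (g (γ k) x - x), sub_smul, mul_smul]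
        abel
    _ ≤ C'' * ((j * τ k) ^ 2) + ε₁ * σ + ε₁ * σ * M := norm_add₃_le.trans (by gcongr)
    _ ≤ C'' * σ * σ + ε₁ * σ + ε₁ * σ * M := by gcongr
    _ = (C'' * σ) * σ + (ε₁ * (1 + M)) * σ := by ring
    _ ≤ (ε / 2) * σ + (ε / 2) * σ := by gcongr
    _ = ε * σ := by ring

end Pool.Agent.Helper22.Lin
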